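import Pool.Agent.R624.BT.Main
import Pool.Agent.R624.BT.Many
import Pool.Agent.R624.BT.Ker
import Pool.Agent.R624.BT.Iso
import Pool.Agent.R624.BT.Net
import Pool.Agent.R624.BT.Low
import Pool.Agent.R624.BT.Sub
import Pool.Agent.R624.BT.Min
import Pool.Agent.R624.BT.Fine
import Pool.Agent.R624.BT.Half
import Pool.Agent.R624.BT.D
import Pool.Agent.R624.BT.Perf

/-!
# Dimensions of winning and non-determined sets on binary subtrees

Problem MP_decccb_lc, Q1, proved: if `T` is a subtree of the binary tree whose canopy `[T]` has
Hausdorff dimension `d > 1/2` and `1/2 ≤ δ ≤ d`, then there are subsets of `[T]` of dimension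
exactly `δ` that are non-determined, won by Player I, and won by Player II, respectively.

Proof.  Let `K ⊆ T` be the set of the nodes `σ` such that `[T] ∩ [σ]` has dimension more than `1/2`.
`[T] ∖ [K]` has dimension at most `1/2`, and above every node of `K` both players have choices in
`K`.  Let `G_j` be the set of the plays of `K` along which, for infinitely many `n`, the moves of
player `j` at all stages between `n` and `n²` are the least possible ones: `G_j` is a `G_δ` of
dimension at most `1/2`, comeager in the set of plays of every strategy of the other player in `K`,
and it contains the plays along which player `j` has finitely many choices.  A closed set `D`,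
disjoint from `G_II`, of dimension exactly `δ` is found by Zorn's lemma, as a minimal closed set of
given net content.  If the set of plays in `K` of a strategy is perfect, then its part in `G`
(of the opponent), without the plays along which its owner has finitely many choices, is comeager in
it, so has cardinality continuum; otherwise it has an isolated point, along which the opponent has
finitely many choices.  `W` consists of `D`, of the plays that leave `K` by a move of II, of the
plays of `K` along which I has finitely many choices, and of one play from `G_I` for each perfect
strategy of II, chosen (Bernstein) such that a play from `G_II` remains outside of `W` for each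
perfect strategy of I.
-/

set_option autoImplicit false

namespace Pool.Agent.Results.MP_decccb_lc.BinarySubtrees

open R624BT
open scoped ENNReal

/-- Subsets of the canopy of every dimension `δ` with `1/2 ≤ δ ≤ dimH (canopy T)` that are
non-determined, won by Player I, and won by Player II. -/
theorem result (T : Set (List Bool)) (hT : IsSubtree T) (hdim : 1 / 2 < dimH (canopy T)) (δ : ℝ≥0∞)
    (hδ : 1 / 2 ≤ δ) (hδd : δ ≤ dimH (canopy T)) :
    ∃ W WI WII : Set Seq, W ⊆ canopy T ∧ WI ⊆ canopy T ∧ WII ⊆ canopy T ∧
      dimH W = δ ∧ dimH WI = δ ∧ dimH WII = δ ∧
      ¬ (WinsI T W ∨ WinsII T W) ∧ WinsI T WI ∧ WinsII T WII := by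
  have hhalf : S_half := s_half s_net
  have hsub : S_sub := s_sub s_net s_low (s_pos s_net) s_min s_fine
  exact full s_ker (s_D hhalf hsub) hhalf (s_many s_perf s_iso s_dG (s_dP hhalf)) s_inj
    T hT hdim δ hδ hδd

end Pool.Agent.Results.MP_decccb_lc.BinarySubtrees
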